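import Pool.Agent.Q119.Real.Six

set_option autoImplicit false

/-!
A super-decomposable abelian group whose endomorphism ring is centrally essential and not
commutative.
-/

namespace Pool.Agent.Results.MP_6d0c2f_al.SuperDecomp

open Pool.Agent.Q119.Real

/-- Every nonzero `a` has nonzero central `x, y` with `a x = y`. -/
def CentrallyEssential (R : Type) [Ring R] : Prop :=
  ∀ a : R, a ≠ 0 → ∃ x ∈ Subring.center R, ∃ y ∈ Subring.center R, x ≠ 0 ∧ y ≠ 0 ∧ a * x = y

/-- A subgroup is indecomposable if it is not the direct sum of two nonzero subgroups. -/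
def Indecomposable {A : Type} [AddCommGroup A] (B : AddSubgroup A) : Prop :=
  ∀ C D : AddSubgroup A, C ⊓ D = ⊥ → C ⊔ D = B → C = ⊥ ∨ D = ⊥

/-- No direct summand is both nonzero and indecomposable. -/
def SuperDecomposable (A : Type) [AddCommGroup A] : Prop :=
  ∀ B : AddSubgroup A, (∃ B' : AddSubgroup A, B ⊓ B' = ⊥ ∧ B ⊔ B' = ⊤) → B ≠ ⊥ →
    ¬ Indecomposable B

/-- The ambient algebra. -/
abbrev E : Type := (ℕ → Bool) → Six

/-- The coordinate idempotents. -/
def chi (i : ℕ) : E := fun s => if s i then 1 else 0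

/-- The generators. -/
def gen (k : ℕ) : E :=
  if k % 5 = 0 then fun _ => Six.X else if k % 5 = 1 then fun _ => Six.Y else
    if k % 5 = 2 then fun _ => Six.Z else if k % 5 = 3 then chi (k / 5) else 1 - chi (k / 5)

theorem chi_idem (i : ℕ) : chi i * chi i = chi i := by
  funext s
  simp only [Pi.mul_apply, chi]
  split_ifs <;> simp

theorem gen_good (i : ℕ) : gen i * gen i = 0 ∨ (gen i * gen i = gen i ∧ ∃ j, gen j = 1 - gen i) := by
  by_cases h0 : i % 5 = 0
  · left
    have : gen i = fun _ => Six.X := by unfold gen; rw [if_pos h0]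
    rw [this]; funext s; exact Six.X_sq
  by_cases h1 : i % 5 = 1
  · left
    have : gen i = fun _ => Six.Y := by unfold gen; rw [if_neg h0, if_pos h1]
    rw [this]; funext s; exact Six.Y_sq
  by_cases h2 : i % 5 = 2
  · left
    have : gen i = fun _ => Six.Z := by unfold gen; rw [if_neg h0, if_neg h1, if_pos h2]
    rw [this]; funext s; exact Six.Z_sq
  right
  by_cases h3 : i % 5 = 3
  · have e1 : gen i = chi (i / 5) := by
      unfold gen; rw [if_neg h0, if_neg h1, if_neg h2, if_pos h3]
    refine ⟨by rw [e1, chi_idem], i + 1, ?_⟩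
    rw [e1]
    have a0 : ¬ (i + 1) % 5 = 0 := by omega
    have a1 : ¬ (i + 1) % 5 = 1 := by omega
    have a2 : ¬ (i + 1) % 5 = 2 := by omega
    have a3 : ¬ (i + 1) % 5 = 3 := by omega
    have a4 : (i + 1) / 5 = i / 5 := by omega
    unfold gen
    rw [if_neg a0, if_neg a1, if_neg a2, if_neg a3, a4]
  · have e1 : gen i = 1 - chi (i / 5) := by
      unfold gen; rw [if_neg h0, if_neg h1, if_neg h2, if_neg h3]
    refine ⟨?_, i - 1, ?_⟩
    · rw [e1, mul_sub, mul_one, sub_mul, one_mul, chi_idem]; abel
    rw [e1]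
    have a0 : ¬ (i - 1) % 5 = 0 := by omega
    have a1 : ¬ (i - 1) % 5 = 1 := by omega
    have a2 : ¬ (i - 1) % 5 = 2 := by omega
    have a3 : (i - 1) % 5 = 3 := by omega
    have a4 : (i - 1) / 5 = i / 5 := by omega
    unfold gen
    rw [if_neg a0, if_neg a1, if_neg a2, if_pos a3, a4]
    abel

/-- The ring. -/
def T : Subring E := Subring.closure (Set.range gen)

theorem X_mem : (fun _ => Six.X : E) ∈ T := Subring.subset_closure ⟨0, rfl⟩
theorem Y_mem : (fun _ => Six.Y : E) ∈ T := Subring.subset_closure ⟨1, rfl⟩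
theorem Z_mem : (fun _ => Six.Z : E) ∈ T := Subring.subset_closure ⟨2, rfl⟩
theorem chi_mem (i : ℕ) : chi i ∈ T := by
  refine Subring.subset_closure ⟨5 * i + 3, ?_⟩
  have a0 : ¬ (5 * i + 3) % 5 = 0 := by omega
  have a1 : ¬ (5 * i + 3) % 5 = 1 := by omega
  have a2 : ¬ (5 * i + 3) % 5 = 2 := by omega
  have a3 : (5 * i + 3) % 5 = 3 := by omega
  have a4 : (5 * i + 3) / 5 = i := by omega
  unfold gen
  rw [if_neg a0, if_neg a1, if_neg a2, if_pos a3, a4]

/-- The values at a point have integer coordinates. -/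
theorem T_apply {b : E} (hb : b ∈ T) (s : ℕ → Bool) : b s ∈ Six.Int6 := by
  have h1 : T ≤ Six.Int6.comap (Pi.evalRingHom (fun _ : ℕ → Bool => Six) s) := by
    apply Subring.closure_le.2
    rintro _ ⟨i, rfl⟩
    change gen i s ∈ Six.Int6
    have hchi : chi (i / 5) s ∈ Six.Int6 := by
      unfold chi
      split_ifs
      · exact Subring.one_mem _
      · exact Subring.zero_mem _
    unfold gen
    split_ifs
    · exact Six.X_mem
    · exact Six.Y_mem
    · exact Six.Z_mem
    · exact hchi
    · exact Subring.sub_mem _ (Subring.one_mem _) hchi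
  exact h1 hb

/-- The elements of the ring depend on finitely many coordinates. -/
theorem T_finite {b : E} (hb : b ∈ T) :
    ∃ n : ℕ, ∀ s t : ℕ → Bool, (∀ i < n, s i = t i) → b s = b t := by
  induction hb using Subring.closure_induction with
  | mem g hg =>
    obtain ⟨i, rfl⟩ := hg
    refine ⟨i / 5 + 1, fun s t h => ?_⟩
    have h1 : chi (i / 5) s = chi (i / 5) t := by
      unfold chi; rw [h _ (by omega)]
    unfold gen
    split_ifs
    · rfl
    · rfl
    · rfl
    · exact h1
    · rw [Pi.sub_apply, Pi.sub_apply, h1]; rfl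
  | zero => exact ⟨0, fun _ _ _ => rfl⟩
  | one => exact ⟨0, fun _ _ _ => rfl⟩
  | add a b _ _ iha ihb =>
    obtain ⟨m, hm⟩ := iha
    obtain ⟨n, hn⟩ := ihb
    refine ⟨max m n, fun s t h => ?_⟩
    rw [Pi.add_apply, Pi.add_apply, hm s t (fun i hi => h i (by omega)),
      hn s t (fun i hi => h i (by omega))]
  | neg a _ iha =>
    obtain ⟨m, hm⟩ := iha
    exact ⟨m, fun s t h => by rw [Pi.neg_apply, Pi.neg_apply, hm s t h]⟩
  | mul a b _ _ iha ihb =>
    obtain ⟨m, hm⟩ := iha
    obtain ⟨n, hn⟩ := ihb
    refine ⟨max m n, fun s t h => ?_⟩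
    rw [Pi.mul_apply, Pi.mul_apply, hm s t (fun i hi => h i (by omega)),
      hn s t (fun i hi => h i (by omega))]

theorem reduced_T : Reduced T := by
  intro b hb h
  funext s
  apply Six.reduced_Int6 (b s) (T_apply hb s)
  intro N
  obtain ⟨p, hN, _, c, hc, hbc⟩ := h N
  refine ⟨p, hN, c s, T_apply hc s, ?_⟩
  rw [hbc]
  rfl

/-- The data. -/
noncomputable def D : Data T := data gen (fun i => (gen_good i).imp id And.left)

theorem good : Good (Set.range gen) D := good_data gen gen_good

/-- The group. -/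
noncomputable abbrev A : AddSubgroup E := Grp D

/-- The endomorphism ring. -/
noncomputable def equiv : T ≃+* AddMonoid.End A := endEquiv reduced_T good rfl

theorem equiv_apply (r : T) (a : A) : ((equiv r a : A) : E) = r * a := rfl

theorem mem_center (r : T) (hx : ∀ s, ((r : E) s).x = 0) (hy : ∀ s, ((r : E) s).y = 0) :
    r ∈ Subring.center T := by
  rw [Subring.mem_center_iff]
  intro t
  apply Subtype.ext
  funext s
  exact (Six.central _ (hx s) (hy s) _).symm

theorem essential_T : CentrallyEssential T := by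
  intro a ha
  by_cases h : a * ⟨fun _ => Six.Z, Z_mem⟩ = 0
  · have h1 : ∀ s, (a : E) s * Six.Z = 0 := fun s => congrFun (congrArg Subtype.val h) s
    have hx : ∀ s, ((a : E) s).x = 0 := fun s => by
      have := congrArg Six.p (h1 s)
      simpa [Six.Z] using this
    have hy : ∀ s, ((a : E) s).y = 0 := fun s => by
      have := congrArg Six.q (h1 s)
      simpa [Six.Z] using this
    refine ⟨1, Subring.one_mem _, a, mem_center a hx hy, ?_, ha, mul_one a⟩
    intro h2
    have := congrArg Six.a (congrFun (congrArg Subtype.val h2) (fun _ => false))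
    simp at this
  · refine ⟨⟨fun _ => Six.Z, Z_mem⟩, mem_center _ (fun _ => rfl) (fun _ => rfl), _, ?_, ?_, h, rfl⟩
    · apply mem_center <;> intro s <;> simp [Six.Z]
    · intro h2
      have := congrArg Six.z (congrFun (congrArg Subtype.val h2) (fun _ => false))
      simp [Six.Z] at this

theorem essential_of_equiv {R S : Type} [Ring R] [Ring S] (e : R ≃+* S)
    (h : CentrallyEssential R) : CentrallyEssential S := by
  have hc : ∀ r ∈ Subring.center R, e r ∈ Subring.center S := by
    intro r hr
    rw [Subring.mem_center_iff] at hr ⊢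
    intro s
    obtain ⟨t, rfl⟩ := e.surjective s
    rw [← map_mul, ← map_mul, hr]
  intro a ha
  obtain ⟨c, hcc, d, hd, hc0, hd0, hcd⟩ := h (e.symm a) (by simpa using ha)
  refine ⟨e c, hc c hcc, e d, hc d hd, by simpa using hc0, by simpa using hd0, ?_⟩
  rw [← hcd, map_mul, e.apply_symm_apply]

theorem not_comm : ¬ ∀ f g : AddMonoid.End A, f * g = g * f := by
  intro h
  have h1 := h (equiv ⟨fun _ => Six.X, X_mem⟩) (equiv ⟨fun _ => Six.Y, Y_mem⟩)
  rw [← map_mul, ← map_mul] at h1
  exact Six.X_ne (congrFun (congrArg Subtype.val (equiv.injective h1)) (fun _ => false))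

theorem chi_comm (i : ℕ) (b : E) : chi i * b = b * chi i := by
  funext s
  simp only [Pi.mul_apply, chi]
  split_ifs <;> simp

theorem superDecomposable : SuperDecomposable A := by
  intro B hB hB0 hind
  obtain ⟨B', hBB', hsup⟩ := hB
  have hdec : ∀ a : A, ∃ b ∈ B, ∃ c ∈ B', b + c = a := fun a => by
    have : a ∈ B ⊔ B' := by rw [hsup]; trivial
    rwa [AddSubgroup.mem_sup] at this
  have huniq : ∀ b ∈ B, ∀ c ∈ B', ∀ b' ∈ B, ∀ c' ∈ B', b + c = b' + c' → b = b' := by
    intro b hb c hc b' hb' c' hc' h
    have h1 : b - b' = c' - c := by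
      rw [sub_eq_sub_iff_add_eq_add, h, add_comm]
    have h2 : b - b' ∈ B ⊓ B' :=
      ⟨B.sub_mem hb hb', by rw [h1]; exact B'.sub_mem hc' hc⟩
    rw [hBB', AddSubgroup.mem_bot] at h2
    exact sub_eq_zero.1 h2
  choose b hb c hc hbc using hdec
  let f : AddMonoid.End A :=
    { toFun := b
      map_zero' := by
        apply huniq _ (hb 0) _ (hc 0) 0 B.zero_mem 0 B'.zero_mem
        rw [hbc, add_zero]
      map_add' := fun s t => by
        apply huniq _ (hb _) _ (hc _) _ (B.add_mem (hb s) (hb t)) _ (B'.add_mem (hc s) (hc t))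
        rw [hbc]
        nth_rewrite 1 [← hbc s, ← hbc t]
        abel }
  have hfB : ∀ s ∈ B, f s = s := by
    intro s hs
    apply huniq _ (hb s) _ (hc s) _ hs 0 B'.zero_mem
    rw [hbc, add_zero]
  obtain ⟨r, hr⟩ := equiv.surjective f
  have hf : ∀ a : A, ((f a : A) : E) = r * a := fun a => by rw [← hr]; rfl
  have hr0 : (r : E) ≠ 0 := by
    intro h
    apply hB0
    rw [eq_bot_iff]
    intro s hs
    rw [AddSubgroup.mem_bot, ← hfB s hs]
    apply Subtype.ext
    rw [hf, h, zero_mul]
    rfl
  obtain ⟨n, hn⟩ := T_finite r.2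
  obtain ⟨s, hs⟩ : ∃ s, (r : E) s ≠ 0 := by
    by_contra hcon
    push Not at hcon
    exact hr0 (funext hcon)
  -- the two points
  have hval : ∀ v : Bool, (r : E) (Function.update s n v) = (r : E) s := by
    intro v
    apply hn
    intro i hi
    rw [Function.update_of_ne (by omega)]
  let u : A := f ⟨1, Grp_of_mem T.one_mem⟩
  have hu : (u : E) = r := by
    have := hf ⟨1, Grp_of_mem T.one_mem⟩
    rw [mul_one] at this
    exact this
  have huB : u ∈ B := hb _
  let C : AddSubgroup A := B ⊓
    { carrier := {a : A | chi n * (a : E) = a}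
      zero_mem' := by
        change chi n * (0 : E) = 0
        rw [mul_zero]
      add_mem' := fun {a b} (ha : _ = _) (hb : _ = _) => by
        change chi n * ((a : E) + b) = a + b
        rw [mul_add, ha, hb]
      neg_mem' := fun {a} (ha : _ = _) => by
        change chi n * (-(a : E)) = -a
        rw [mul_neg, ha] }
  let C' : AddSubgroup A := B ⊓
    { carrier := {a : A | chi n * (a : E) = 0}
      zero_mem' := by
        change chi n * (0 : E) = 0
        rw [mul_zero]
      add_mem' := fun {a b} (ha : _ = _) (hb : _ = _) => by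
        change chi n * ((a : E) + b) = 0
        rw [mul_add, ha, hb, add_zero]
      neg_mem' := fun {a} (ha : _ = _) => by
        change chi n * (-(a : E)) = 0
        rw [mul_neg, ha, neg_zero] }
  have hmemC : ∀ a : A, a ∈ B → (⟨chi n * a, Grp_mul (chi_mem n) a.2⟩ : A) ∈ B := by
    intro a ha
    have h1 : f ⟨chi n * a, Grp_mul (chi_mem n) a.2⟩ = ⟨chi n * a, Grp_mul (chi_mem n) a.2⟩ := by
      apply Subtype.ext
      rw [hf]
      change (r : E) * (chi n * (a : E)) = chi n * a
      rw [← mul_assoc, ← chi_comm, mul_assoc, ← hf, hfB a ha]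
    rw [← h1]
    exact hb _
  have hCC : C ⊓ C' = ⊥ := by
    rw [eq_bot_iff]
    rintro a ⟨⟨_, h1⟩, _, h2⟩
    rw [AddSubgroup.mem_bot]
    apply Subtype.ext
    have h3 : chi n * (a : E) = a := h1
    have h4 : chi n * (a : E) = 0 := h2
    rw [← h3, h4]
    rfl
  have hsupC : C ⊔ C' = B := by
    apply le_antisymm
    · exact sup_le inf_le_left inf_le_left
    · intro a ha
      rw [AddSubgroup.mem_sup]
      refine ⟨⟨chi n * a, Grp_mul (chi_mem n) a.2⟩, ⟨hmemC a ha, ?_⟩,
        a - ⟨chi n * a, Grp_mul (chi_mem n) a.2⟩, ⟨B.sub_mem ha (hmemC a ha), ?_⟩, by abel⟩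
      · change chi n * (chi n * (a : E)) = chi n * a
        rw [← mul_assoc, chi_idem]
      · change chi n * ((a : E) - chi n * (a : E)) = 0
        rw [mul_sub, ← mul_assoc, chi_idem, sub_self]
  rcases hind C C' hCC hsupC with h | h
  · -- `chi n * u` is a nonzero element of `C`
    have h1 : (⟨chi n * u, Grp_mul (chi_mem n) u.2⟩ : A) ∈ C := by
      refine ⟨hmemC u huB, ?_⟩
      change chi n * (chi n * (u : E)) = chi n * u
      rw [← mul_assoc, chi_idem]
    rw [h, AddSubgroup.mem_bot] at h1
    have h2 := congrFun (congrArg Subtype.val h1) (Function.update s n true)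
    change chi n (Function.update s n true) * (u : E) (Function.update s n true) = 0 at h2
    rw [hu, hval] at h2
    simp only [chi, Function.update_self, if_true, one_mul] at h2
    exact hs h2
  · have h1 : u - (⟨chi n * u, Grp_mul (chi_mem n) u.2⟩ : A) ∈ C' := by
      refine ⟨B.sub_mem huB (hmemC u huB), ?_⟩
      change chi n * ((u : E) - chi n * (u : E)) = 0
      rw [mul_sub, ← mul_assoc, chi_idem, sub_self]
    rw [h, AddSubgroup.mem_bot] at h1
    have h2 := congrFun (congrArg Subtype.val h1) (Function.update s n false)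
    change (u : E) (Function.update s n false)
      - chi n (Function.update s n false) * (u : E) (Function.update s n false) = 0 at h2
    rw [hu, hval] at h2
    simp [chi] at h2
    exact hs h2

/-- There is a super-decomposable abelian group whose endomorphism ring is centrally essential and
not commutative. -/
theorem result : ∃ (A : Type) (_ : AddCommGroup A), SuperDecomposable A ∧
    CentrallyEssential (AddMonoid.End A) ∧ ¬ ∀ f g : AddMonoid.End A, f * g = g * f :=
  ⟨A, inferInstance, superDecomposable, essential_of_equiv equiv essential_T, not_comm⟩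

end Pool.Agent.Results.MP_6d0c2f_al.SuperDecomp
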